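import Pool.Agent.Helper47.ME.Goals

/-! Packet ME-LIM: the limit argument. -/

open MeasureTheory Set Filter Topology
open scoped ENNReal Quaternion
open Pool.Agent.Helper47.AQ Pool.Agent.Helper72.MK Pool.Agent.Helper47.ME

noncomputable section

namespace Pool.Agent.Helper12.ME

theorem SS_compact : IsCompact (SS ℍ[ℝ]) := by
  have h : SS ℍ[ℝ] = Metric.sphere (0 : ℍ[ℝ]) 1 := by
    ext x
    simp [SS]
  rw [h]
  exact isCompact_sphere _ _

theorem lim (hTT : TTStmt) (hTAU : TAUStmt) (hEQV : EQVStmt) (hCTZ : CTZStmt)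
    (hGEZ : GEZStmt) (hFRM : FRMStmt) (hMIDI : MIDIStmt) (hDII : DIIStmt) : LIMStmt := by
  intro K hK hF
  obtain ⟨τ, hτc, hτ⟩ := hTAU K hK
  obtain ⟨c, hc, hc'⟩ := hMIDI K hK
  obtain ⟨hDo, hDs, -⟩ := hDII K hK
  obtain ⟨hzpc, hzmc⟩ := hCTZ K τ hK hτc fun g hg => (hτ g hg).1
  -- the approximate parallelograms
  have key : ∀ n : ℕ, ∃ g ∈ SS ℍ[ℝ], c ((1 - 1 / ((n : ℝ) + 2)) • zp K (τ g) g) =
      c ((1 - 1 / ((n : ℝ) + 2)) • zm K (τ g) g) ∧
      (1 - 1 / ((n : ℝ) + 2)) • zp K (τ g) g ∈ Di K ∧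
      (1 - 1 / ((n : ℝ) + 2)) • zm K (τ g) g ∈ Di K := by
    intro n
    have hn : (0 : ℝ) < (n : ℝ) + 2 := by positivity
    set δ : ℝ := 1 - 1 / ((n : ℝ) + 2) with hδ
    have hδ1 : δ < 1 := by
      have : 0 < 1 / ((n : ℝ) + 2) := by positivity
      linarith
    have hδ0 : 0 ≤ δ := by
      have : 1 / ((n : ℝ) + 2) ≤ 1 := by
        rw [div_le_one hn]
        have : (0 : ℝ) ≤ n := Nat.cast_nonneg n
        linarith
      linarith
    have hp : ∀ g ∈ SS ℍ[ℝ], δ • zp K (τ g) g ∈ Di K := by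
      intro g hg
      obtain ⟨x, hx, y, hy, hxy⟩ := (hGEZ K hK (τ g) (hτ g hg).1 g hg (hτ g hg).2.1).1
      rw [hxy]
      exact hDs x hx y hy δ hδ0 hδ1
    have hm : ∀ g ∈ SS ℍ[ℝ], δ • zm K (τ g) g ∈ Di K := by
      intro g hg
      obtain ⟨x, hx, y, hy, hxy⟩ := (hGEZ K hK (τ g) (hτ g hg).1 g hg (hτ g hg).2.1).2.1
      rw [hxy]
      exact hDs x hx y hy δ hδ0 hδ1
    obtain ⟨g, hg, hD⟩ := hTT (fun g => c (δ • zp K (τ g) g) - c (δ • zm K (τ g) g))
      (by
        refine ContinuousOn.sub ?_ ?_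
        · exact hc.comp (hzpc.const_smul δ) fun g hg => hp g hg
        · exact hc.comp (hzmc.const_smul δ) fun g hg => hm g hg)
      (by
        intro g hg
        obtain ⟨e1, e2, _, _⟩ := hEQV K (τ g) (hτ g hg).1 g hg
        rw [(hτ g hg).2.2.1, e1, e2, smul_neg, (hc' _ (hp g hg)).1, neg_sub])
      (by
        intro g hg
        obtain ⟨_, _, e3, e4⟩ := hEQV K (τ g) (hτ g hg).1 g hg
        rw [(hτ g hg).2.2.2, e3, e4, smul_neg, (hc' _ (hm g hg)).1])
    exact ⟨g, hg, sub_eq_zero.1 hD, hp g hg, hm g hg⟩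
  choose G hGS hGe hGp hGm using key
  set δ : ℕ → ℝ := fun n => 1 - 1 / ((n : ℝ) + 2) with hδ
  set U : ℕ → Fin 3 → ℝ := fun n => c (δ n • zp K (τ (G n)) (G n)) with hU
  have hUp : ∀ n, U n + (1 / 2 : ℝ) • (δ n • zp K (τ (G n)) (G n)) ∈ interior K ∧
      U n - (1 / 2 : ℝ) • (δ n • zp K (τ (G n)) (G n)) ∈ interior K := fun n =>
    (hc' _ (hGp n)).2
  have hUm : ∀ n, U n + (1 / 2 : ℝ) • (δ n • zm K (τ (G n)) (G n)) ∈ interior K ∧
      U n - (1 / 2 : ℝ) • (δ n • zm K (τ (G n)) (G n)) ∈ interior K := by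
    intro n
    have h := (hc' _ (hGm n)).2
    have e : U n = c (δ n • zm K (τ (G n)) (G n)) := hGe n
    rw [e]
    exact h
  have hUK : ∀ n, U n ∈ K := by
    intro n
    have h := hK.conv (interior_subset (hUp n).1) (interior_subset (hUp n).2)
      (by norm_num : (0 : ℝ) ≤ 1 / 2) (by norm_num : (0 : ℝ) ≤ 1 / 2) (by norm_num)
    have e : (1 / 2 : ℝ) • (U n + (1 / 2 : ℝ) • (δ n • zp K (τ (G n)) (G n))) +
        (1 / 2 : ℝ) • (U n - (1 / 2 : ℝ) • (δ n • zp K (τ (G n)) (G n))) = U n := by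
      ext i
      simp only [Pi.add_apply, Pi.smul_apply, Pi.sub_apply, smul_eq_mul]
      ring
    rwa [e] at h
  -- the limit
  obtain ⟨⟨g, u⟩, ⟨hg, hu⟩, φ, hφ, hlim⟩ := (SS_compact.prod hK.comp).tendsto_subseq
    (x := fun n => (G n, U n)) fun n => ⟨hGS n, hUK n⟩
  have hg : g ∈ SS ℍ[ℝ] := hg
  have hlg : Tendsto (fun n => G (φ n)) atTop (𝓝 g) :=
    (continuous_fst.tendsto _).comp hlim
  have hlu : Tendsto (fun n => U (φ n)) atTop (𝓝 u) :=
    (continuous_snd.tendsto _).comp hlim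
  have hlδ : Tendsto (fun n => δ (φ n)) atTop (𝓝 1) := by
    have h1 : Tendsto (fun n : ℕ => ((n : ℝ) + 2)) atTop atTop :=
      tendsto_atTop_add_const_right _ _ tendsto_natCast_atTop_atTop
    have h2 : Tendsto δ atTop (𝓝 (1 - 0)) := by
      refine Tendsto.sub tendsto_const_nhds ?_
      have h3 := h1.inv_tendsto_atTop
      refine h3.congr fun n => ?_
      simp
    rw [sub_zero] at h2
    exact h2.comp hφ.tendsto_atTop
  have hlgw : Tendsto (fun n => G (φ n)) atTop (𝓝[SS ℍ[ℝ]] g) :=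
    tendsto_nhdsWithin_of_tendsto_nhds_of_eventually_within _ hlg
      (Eventually.of_forall fun n => hGS (φ n))
  have hlp : Tendsto (fun n => zp K (τ (G (φ n))) (G (φ n))) atTop (𝓝 (zp K (τ g) g)) :=
    (hzpc g hg).tendsto.comp hlgw
  have hlm : Tendsto (fun n => zm K (τ (G (φ n))) (G (φ n))) atTop (𝓝 (zm K (τ g) g)) :=
    (hzmc g hg).tendsto.comp hlgw
  have hldp : Tendsto (fun n => δ (φ n) • zp K (τ (G (φ n))) (G (φ n))) atTop
      (𝓝 (zp K (τ g) g)) := by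
    simpa using hlδ.smul hlp
  have hldm : Tendsto (fun n => δ (φ n) • zm K (τ (G (φ n))) (G (φ n))) atTop
      (𝓝 (zm K (τ g) g)) := by
    simpa using hlδ.smul hlm
  have hcl : IsClosed K := hK.comp.isClosed
  have kp1 : u + (1 / 2 : ℝ) • zp K (τ g) g ∈ K :=
    hcl.mem_of_tendsto (hlu.add (hldp.const_smul _))
      (Eventually.of_forall fun n => interior_subset (hUp (φ n)).1)
  have kp2 : u - (1 / 2 : ℝ) • zp K (τ g) g ∈ K :=
    hcl.mem_of_tendsto (hlu.sub (hldp.const_smul _))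
      (Eventually.of_forall fun n => interior_subset (hUp (φ n)).2)
  have km1 : u + (1 / 2 : ℝ) • zm K (τ g) g ∈ K :=
    hcl.mem_of_tendsto (hlu.add (hldm.const_smul _))
      (Eventually.of_forall fun n => interior_subset (hUm (φ n)).1)
  have km2 : u - (1 / 2 : ℝ) • zm K (τ g) g ∈ K :=
    hcl.mem_of_tendsto (hlu.sub (hldm.const_smul _))
      (Eventually.of_forall fun n => interior_subset (hUm (φ n)).2)
  by_cases hP : zp K (τ g) g ∈ Di K
  · by_cases hM : zm K (τ g) g ∈ Di K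
    · exfalso
      have cp : Tendsto (fun n => U (φ n)) atTop (𝓝 (c (zp K (τ g) g))) :=
        (hc.continuousAt (hDo.mem_nhds hP)).tendsto.comp hldp
      have cm : Tendsto (fun n => U (φ n)) atTop (𝓝 (c (zm K (τ g) g))) := by
        have h := (hc.continuousAt (hDo.mem_nhds hM)).tendsto.comp hldm
        refine h.congr fun n => ?_
        exact (hGe (φ n)).symm
      have e1 : u = c (zp K (τ g) g) := tendsto_nhds_unique hlu cp
      have e2 : u = c (zm K (τ g) g) := tendsto_nhds_unique hlu cm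
      have i1 := (hc' _ hP).2
      have i2 := (hc' _ hM).2
      rw [← e1] at i1
      rw [← e2] at i2
      have ev : ∀ (v : Fin 3 → ℝ), u + (1 / 2 : ℝ) • v ∈ interior K →
          u - (1 / 2 : ℝ) • v ∈ interior K →
          ∀ᶠ s in 𝓝 (1 : ℝ), u + (1 / 2 : ℝ) • (s • v) ∈ K ∧ u - (1 / 2 : ℝ) • (s • v) ∈ K := by
        intro v h1 h2
        have c1 : Continuous fun s : ℝ => u + (1 / 2 : ℝ) • (s • v) := by fun_prop
        have c2 : Continuous fun s : ℝ => u - (1 / 2 : ℝ) • (s • v) := by fun_prop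
        have o1 := c1.continuousAt (x := (1 : ℝ)) |>.eventually
          (isOpen_interior.mem_nhds (by simpa using h1))
        have o2 := c2.continuousAt (x := (1 : ℝ)) |>.eventually
          (isOpen_interior.mem_nhds (by simpa using h2))
        filter_upwards [o1, o2] with s hs1 hs2
        exact ⟨interior_subset hs1, interior_subset hs2⟩
      obtain ⟨ε, hε, hball⟩ := Metric.eventually_nhds_iff.1 ((ev _ i1.1 i1.2).and (ev _ i2.1 i2.2))
      have hd : dist (1 + ε / 2) (1 : ℝ) < ε := by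
        rw [Real.dist_eq, add_sub_cancel_left, abs_of_pos (by linarith)]
        linarith
      obtain ⟨⟨a1, a2⟩, ⟨a3, a4⟩⟩ := hball hd
      have h := (hGEZ K hK (τ g) (hτ g hg).1 g hg (hτ g hg).2.1).2.2 (1 + ε / 2) u
        (by linarith) a1 a2 a3 a4
      rw [hF] at h
      linarith
    · obtain ⟨e1, e2, _, _⟩ := hEQV K (τ g) (hτ g hg).1 g hg
      have hgo : g * om ∈ SS ℍ[ℝ] := (hFRM.2 g hg).1
      obtain ⟨t1, t2, _, _⟩ := hτ (g * om) hgo
      rw [(hτ g hg).2.2.1] at t1 t2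
      refine ⟨(τ g)⁻¹, g * om, u, t1, hgo, t2, ?_, ?_, ?_, ?_, ?_⟩
      · rw [e1]; exact km1
      · rw [e1]; exact km2
      · rw [e2, smul_neg, ← sub_eq_add_neg]; exact kp2
      · rw [e2, smul_neg, sub_neg_eq_add]; exact kp1
      · rw [e1]; exact hM
  · exact ⟨τ g, g, u, (hτ g hg).1, hg, (hτ g hg).2.1, kp1, kp2, km1, km2, hP⟩

end Pool.Agent.Helper12.ME
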